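import Pool.Agent.Lib.MP_091276_al.Top

set_option autoImplicit false

namespace Pool.Agent.Results.MP_091276_al.CarlitzCubic

open Polynomial Pool.Agent.K12

/-- Over the field with seven elements the `ω ^ (1 - 51)` eigenspace of the Carlitz class module
modulo the prime `T ^ 3 - 3` has `343` elements. -/
theorem result (F : Type) [Field F] [Fintype F] (h : Fintype.card F = 7) :
    Irreducible (X ^ 3 - C 3 : F[X]) ∧ eigCard (T F) (X ^ 3 - C 3 : F[X]) 51 = 343 :=
  example_seven h

end Pool.Agent.Results.MP_091276_al.CarlitzCubic
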