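import Pool.Agent.Lib.MP_091276_al.Top

set_option autoImplicit false

namespace Pool.Agent.Results.MP_091276_al.CarlitzKurihara

open Polynomial Pool.Agent.K12

/-- For `2 ≤ n ≤ q ^ k` one finite `F[t]`-module `coker Kmat`, free of `P`, computes the `ω ^ (1 - n)`
eigenspace of the Carlitz class module modulo `P` for all primes `P` of degree at least `k`. -/
theorem result (F : Type) [Field F] [Fintype F] (k n : ℕ) (h1 : 2 ≤ n)
    (h2 : n ≤ Fintype.card F ^ k) :
    rk (Fintype.card F) k n ≤ k - 2 ∧ ∃ D : F[X], D.Monic ∧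
      D.natDegree = rk (Fintype.card F) k n * Fintype.card F ^ k ∧ KillsCok D (Kmat F k n) ∧
      ∀ P : F[X], P.Monic → Irreducible P → k ≤ P.natDegree →
        eigCard (T F) P n = cokCard P (Kmat F k n) ∧ (¬ P ∣ D → eigCard (T F) P n = 1) := by
  obtain ⟨D, d1, d2, d3, d4⟩ := exists_D (F := F) (by omega) h2
  exact ⟨rk_le Fintype.one_lt_card k n, D, d1, d2, d3, fun P hm hi hk =>
    ⟨card_Kn hm hi hk h1 h2, fun h => eigCard_one (d4 P hm hi hk h)⟩⟩

end Pool.Agent.Results.MP_091276_al.CarlitzKurihara
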